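import Pool.Agent.E8helper28.Gi.Jen

/-! # Almost orthogonality of the scales -/

set_option autoImplicit false

open Finset MeasureTheory

namespace Pool.Agent.E8helper28.Gi

variable {c : ℤ → ℝ} {Φ Φ' φ φ' : ℝ → ℝ} {A : ℝ}

lemma B_left (w v : ℤ →₀ ℝ) (S : Finset ℤ) (hS : ∀ k, k ∉ S → w k = 0) :
    B c w v = ∑ k ∈ S, w k * B c (Finsupp.single k 1) v := by
  have h1 : w.support ⊆ S := fun k hk => by
    by_contra h
    exact (Finsupp.mem_support_iff.1 hk) (hS k h)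
  unfold B
  rw [Finsupp.linearCombination_apply, Finsupp.sum_of_support_subset _ h1 _ (by intro k _; exact zero_smul _ _),
    LinearMap.sum_apply]
  refine Finset.sum_congr rfl fun k _ => ?_
  rw [LinearMap.smul_apply, Finsupp.linearCombination_single, one_smul, smul_eq_mul]

lemma B_right (w v : ℤ →₀ ℝ) (S : Finset ℤ) (hS : ∀ k, k ∉ S → v k = 0) :
    B c w v = ∑ l ∈ S, v l * B c w (Finsupp.single l 1) := by
  have h1 : v = ∑ l ∈ S, v l • Finsupp.single l (1 : ℝ) := by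
    ext m
    rw [Finsupp.finsetSum_apply]
    by_cases hm : m ∈ S
    · rw [Finset.sum_eq_single m]
      · simp
      · intro l _ hl
        rw [Finsupp.smul_apply, Finsupp.single_eq_of_ne (by tauto), smul_zero]
      · intro h; exact absurd hm h
    · rw [hS m hm, Finset.sum_eq_zero]
      intro l hl
      rw [Finsupp.smul_apply, Finsupp.single_eq_of_ne (by rintro rfl; exact hm hl), smul_zero]
  conv_lhs => rw [h1]
  rw [map_sum]
  simp only [map_smul, smul_eq_mul]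

lemma B_single (k : ℤ) (v : ℤ →₀ ℝ) (S : Finset ℤ) (hS : ∀ k, k ∉ S → v k = 0) :
    B c (Finsupp.single k 1) v = ∑ l ∈ S, v l * c (k - l) := by
  classical
  rw [B_eq _ v {k} S (fun m hm => Finsupp.single_eq_of_ne (by simpa using hm)) hS, Finset.sum_singleton]
  refine Finset.sum_congr rfl fun l _ => ?_
  rw [Finsupp.single_eq_same, one_mul]

/-- symmetric intervals -/
noncomputable abbrev IC (N : ℕ) : Finset ℤ := Icc (-(N : ℤ)) N

lemma ic_out {N : ℕ} {k : ℤ} (hk : k ∉ IC N) : (N : ℝ) + 1 ≤ |(k : ℝ)| := by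
  rw [mem_Icc, not_and_or] at hk
  rcases hk with h3 | h3
  · have h4 : (k : ℝ) + 1 ≤ -N := by
      have : k + 1 ≤ -(N : ℤ) := by omega
      exact_mod_cast this
    have := neg_le_abs (k : ℝ)
    linarith
  · have h4 : (N : ℝ) + 1 ≤ k := by
      have : (N : ℤ) + 1 ≤ k := by omega
      exact_mod_cast this
    exact h4.trans (le_abs_self _)

lemma ic_in {N : ℕ} {k : ℤ} (hk : k ∈ IC N) : |(k : ℝ)| ≤ N := by
  rw [mem_Icc] at hk
  have h1 : -(N : ℝ) ≤ k := by exact_mod_cast hk.1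
  have h2 : (k : ℝ) ≤ N := by exact_mod_cast hk.2
  exact abs_le.2 ⟨h1, h2⟩

lemma U_out (h : Step Φ Φ' A) {R t : ℝ} (hR : 0 < R) {N : ℕ} (hN : A * R + |t| ≤ N) {k : ℤ}
    (hk : k ∉ IC N) : U Φ R t k = 0 := by
  rw [U_apply h hR]
  apply uf_zero h hR
  have h1 := ic_out hk
  have h4 := abs_sub_abs_le_abs_sub (k : ℝ) (-t)
  rw [abs_neg, sub_neg_eq_add] at h4
  linarith

lemma uf_shift (R t s : ℝ) (k m : ℤ) (h : (m : ℝ) + t = k + s) : uf Φ R t m = uf Φ R s k := by
  unfold uf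
  rw [show (m : ℝ) + 1 + t = k + 1 + s by linarith, h]

/-- the sum of the weights -/
lemma U_sum (h : Step Φ Φ' A) {R : ℝ} (hR : 0 < R) {N : ℕ} (hN : A * R ≤ N) :
    ∑ k ∈ IC N, U Φ R 0 k = R * (Φ A - Φ (-A)) := by
  have e : ∀ k ∈ IC N, U Φ R 0 k = ∫ θ in (0 : ℝ)..1, Φ' (((k : ℝ) + 0 + θ) / R) := by
    intro k _
    rw [U_apply h hR, uf_int h hR]
  rw [Finset.sum_congr rfl e, sum_unit (fun x => Φ' (x / R)) (h.c.comp (by fun_prop)) 0 N]
  have h1 : ∀ x ∈ Set.uIcc (-(N : ℝ) + 0) (N + 1 + 0), HasDerivAt (fun x => R * Φ (x / R)) (Φ' (x / R)) x := by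
    intro x _
    have h2 : HasDerivAt (fun x : ℝ => x / R) (1 / R) x := (hasDerivAt_id x).div_const R
    have h3 := ((h.d (x / R)).comp x h2).const_mul R
    have e : R * (Φ' (x / R) * (1 / R)) = Φ' (x / R) := by field_simp
    rw [e] at h3
    exact h3
  have h4 : Continuous fun x : ℝ => Φ' (x / R) := h.c.comp (by fun_prop)
  rw [intervalIntegral.integral_eq_sub_of_hasDerivAt h1 (h4.intervalIntegrable _ _), ← mul_sub]
  congr 2
  · apply h.right
    · rw [le_div_iff₀ hR]; linarith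
    · exact le_rfl
  · apply h.left
    · rw [div_le_iff₀ hR]; linarith
    · exact le_rfl

/-- slow variation -/
lemma slow (hc : ∀ k, c (-k) = c k) (hP : ∀ w, 0 ≤ B c w w) (h0 : Step Φ φ A) (h1 : Step φ φ' A) {R : ℝ}
    (hR : 0 < R) {K V : ℝ} (hK : ∀ t, B c (U φ R t) (U φ R t) ≤ K) (v : ℤ →₀ ℝ) (hV0 : 0 ≤ V)
    (hv : B c v v ≤ V) (t : ℝ) :
    |B c v (U Φ R t) - B c v (U Φ R 0)| ≤ Real.sqrt V * Real.sqrt K / R * |t| := by
  have hd : ∀ s : ℝ, HasDerivAt (fun s => B c v (U Φ R s)) (1 / R * B c v (U φ R s)) s := by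
    intro s
    obtain ⟨N, hN⟩ := exists_nat_ge (A * R + |s| + 1)
    have e1 : ∀ r : ℝ, |r - s| < 1 → B c v (U Φ R r) =
        ∑ l ∈ IC N, uf Φ R r l * B c v (Finsupp.single l 1) := by
      intro r hr
      have h3 := abs_sub_abs_le_abs_sub r s
      rw [B_right v (U Φ R r) (IC N) (fun k hk => U_out h0 hR (by linarith) hk)]
      simp only [U_apply h0 hR]
    have e2 : B c v (U φ R s) = ∑ l ∈ IC N, uf φ R s l * B c v (Finsupp.single l 1) := by
      rw [B_right v (U φ R s) (IC N) (fun k hk => U_out h1 hR (by linarith) hk)]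
      simp only [U_apply h1 hR]
    have h2 : HasDerivAt (fun r => ∑ l ∈ IC N, uf Φ R r l * B c v (Finsupp.single l 1))
        (1 / R * B c v (U φ R s)) s := by
      rw [e2, Finset.mul_sum]
      refine HasDerivAt.fun_sum fun l _ => ?_
      have h3 : ∀ x : ℝ, HasDerivAt (fun r : ℝ => Φ ((x + r) / R)) (φ ((x + s) / R) * (1 / R)) s := by
        intro x
        have h4 : HasDerivAt (fun r : ℝ => (x + r) / R) (1 / R) s :=
          ((hasDerivAt_id s).const_add _).div_const R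
        exact (h0.d ((x + s) / R)).comp s h4
      have h5 := (((h3 (l + 1)).sub (h3 l)).const_mul R).mul_const (B c v (Finsupp.single l 1))
      have e3 : R * (φ (((l : ℝ) + 1 + s) / R) * (1 / R) - φ (((l : ℝ) + s) / R) * (1 / R)) *
          B c v (Finsupp.single l 1) = 1 / R * (uf φ R s l * B c v (Finsupp.single l 1)) := by
        unfold uf
        ring
      rw [e3] at h5
      exact h5
    refine h2.congr_of_eventuallyEq ?_
    filter_upwards [Metric.ball_mem_nhds s one_pos] with r hr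
    rw [Metric.mem_ball, Real.dist_eq] at hr
    exact e1 r hr
  have hb : ∀ s : ℝ, ‖1 / R * B c v (U φ R s)‖ ≤ Real.sqrt V * Real.sqrt K / R := by
    intro s
    rw [Real.norm_eq_abs, abs_mul, abs_of_pos (by positivity)]
    have := B_cs hc hP hV0 hv (hK s)
    calc 1 / R * |B c v (U φ R s)| ≤ 1 / R * (Real.sqrt V * Real.sqrt K) :=
          mul_le_mul_of_nonneg_left this (by positivity)
      _ = _ := by ring
  have h3 := Convex.norm_image_sub_le_of_norm_hasDerivWithin_le (f := fun s => B c v (U Φ R s))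
    (s := Set.univ) (x := 0) (y := t) (fun s _ => (hd s).hasDerivWithinAt) (fun s _ => hb s) convex_univ
    (Set.mem_univ _) (Set.mem_univ _)
  rw [Real.norm_eq_abs, Real.norm_eq_abs, sub_zero] at h3
  exact h3

lemma U_nonneg (h : Step Φ φ A) (hφ : ∀ x, 0 ≤ φ x) {R : ℝ} (hR : 0 < R) (t : ℝ) (k : ℤ) :
    0 ≤ U Φ R t k := by
  rw [U_apply h hR, ← uf_int h hR]
  exact intervalIntegral.integral_nonneg zero_le_one fun θ _ => hφ _

/-- almost orthogonality -/
theorem cross (hc : ∀ k, c (-k) = c k) (hP : ∀ w, 0 ≤ B c w w) (h0 : Step Φ φ A) (h1 : Step φ φ' A)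
    (hφ : ∀ x, 0 ≤ φ x) (hI : 0 < Φ A - Φ (-A)) {K0 K1 : ℝ} (hK0 : 0 ≤ K0)
    (hn0 : ∀ R : ℝ, 2 ≤ R → ∀ t, B c (U Φ R t) (U Φ R t) ≤ K0)
    (hn1 : ∀ R : ℝ, 2 ≤ R → ∀ t, B c (U φ R t) (U φ R t) ≤ K1) {R R' h : ℝ} (hR : 2 ≤ R) (hR' : 2 ≤ R')
    (hh : 2 ≤ h) :
    |B c (U Φ R 0) (U Φ R' 0)| ≤ K0 * (R / h) + Real.sqrt K0 * Real.sqrt K1 * (A * h + 1) / R' := by
  have hR0 : 0 < R := by linarith
  have hR0' : 0 < R' := by linarith
  have hh0 : 0 < h := by linarith
  obtain ⟨I, hIe⟩ : ∃ I, I = Φ A - Φ (-A) := ⟨_, rfl⟩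
  rw [← hIe] at hI
  obtain ⟨N, hN⟩ := exists_nat_ge (A * h)
  obtain ⟨M, hM⟩ := exists_nat_ge (A * R)
  have hsN : ∑ s ∈ IC N, U Φ h 0 s = h * I := by rw [U_sum h0 hh0 hN, hIe]
  have hsM : ∑ k ∈ IC M, U Φ R 0 k = R * I := by rw [U_sum h0 hR0 hM, hIe]
  -- the shifted form
  have e1 : ∀ s : ℤ, B c (U Φ R 0) (U Φ R' s) =
      ∑ k ∈ IC M, U Φ R 0 k * B c (Finsupp.single (k + s) 1) (U Φ R' 0) := by
    intro s
    rw [B_left (U Φ R 0) _ (IC M) (fun k hk => U_out h0 hR0 (by simpa using hM) hk)]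
    refine Finset.sum_congr rfl fun k _ => ?_
    congr 1
    obtain ⟨P, hP'⟩ := exists_nat_ge (A * R' + |(s : ℝ)|)
    have hP0 : A * R' + |(0 : ℝ)| ≤ P := by
      rw [abs_zero]
      have := abs_nonneg (s : ℝ)
      linarith
    rw [B_single _ _ (IC P) (fun k hk => U_out h0 hR0' hP' hk)]
    rw [B_single (k + s) _ ((IC P).map (addRightEmbedding s)) (fun m hm => by
      rw [U_apply h0 hR0', ← uf_shift R' s 0 m (m - s) (by push_cast; ring), ← U_apply h0 hR0']
      apply U_out h0 hR0' hP'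
      intro h5
      apply hm
      rw [Finset.mem_map]
      exact ⟨m - s, h5, by rw [addRightEmbedding_apply]; ring⟩)]
    rw [Finset.sum_map]
    refine Finset.sum_congr rfl fun l _ => ?_
    rw [addRightEmbedding_apply, U_apply h0 hR0', U_apply h0 hR0', uf_shift R' 0 s l (l + s) (by push_cast; ring),
      show k + s - (l + s) = k - l by ring]
  have e2 : ∑ s ∈ IC N, U Φ h 0 s * B c (U Φ R 0) (U Φ R' s) =
      ∑ k ∈ IC M, U Φ R 0 k * B c (U Φ h (-k)) (U Φ R' 0) := by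
    simp only [e1, Finset.mul_sum]
    rw [Finset.sum_comm]
    refine Finset.sum_congr rfl fun k _ => ?_
    rw [B_left (U Φ h (-k)) _ ((IC N).map (addLeftEmbedding k)) (fun m hm => by
      rw [U_apply h0 hh0, uf_shift h (-k) 0 (m - k) m (by push_cast; ring), ← U_apply h0 hh0]
      apply U_out h0 hh0 (by simpa using hN)
      intro h5
      apply hm
      rw [Finset.mem_map]
      exact ⟨m - k, h5, by rw [addLeftEmbedding_apply]; ring⟩)]
    rw [Finset.sum_map, Finset.mul_sum]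
    refine Finset.sum_congr rfl fun s _ => ?_
    rw [addLeftEmbedding_apply, U_apply h0 hh0 (k + s), uf_shift h (-k) 0 s (k + s) (by push_cast; ring),
      ← U_apply h0 hh0]
    ring
  -- bounds
  have b1 : |∑ k ∈ IC M, U Φ R 0 k * B c (U Φ h (-k)) (U Φ R' 0)| ≤ R * I * K0 := by
    rw [← hsM, Finset.sum_mul]
    refine (Finset.abs_sum_le_sum_abs _ _).trans (Finset.sum_le_sum fun k _ => ?_)
    rw [abs_mul, abs_of_nonneg (U_nonneg h0 hφ hR0 0 k)]
    apply mul_le_mul_of_nonneg_left _ (U_nonneg h0 hφ hR0 0 k)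
    have := B_cs hc hP hK0 (hn0 h hh (-k)) (hn0 R' hR' 0)
    rwa [Real.mul_self_sqrt hK0] at this
  have b2 : |h * I * B c (U Φ R 0) (U Φ R' 0) - ∑ s ∈ IC N, U Φ h 0 s * B c (U Φ R 0) (U Φ R' s)| ≤
      h * I * (Real.sqrt K0 * Real.sqrt K1 / R' * (A * h + 1)) := by
    rw [← hsN, Finset.sum_mul, ← Finset.sum_sub_distrib, Finset.sum_mul]
    refine (Finset.abs_sum_le_sum_abs _ _).trans (Finset.sum_le_sum fun s _ => ?_)
    rw [← mul_sub, abs_mul, abs_of_nonneg (U_nonneg h0 hφ hh0 0 s)]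
    rcases le_or_gt |(s : ℝ)| (A * h + 1) with hs | hs
    · apply mul_le_mul_of_nonneg_left _ (U_nonneg h0 hφ hh0 0 s)
      rw [abs_sub_comm]
      refine (slow hc hP h0 h1 hR0' (hn1 R' hR') (U Φ R 0) hK0 (hn0 R hR 0) s).trans ?_
      exact mul_le_mul_of_nonneg_left hs (by positivity)
    · have : U Φ h 0 s = 0 := by
        rw [U_apply h0 hh0]
        exact uf_zero h0 hh0 s (by rw [add_zero]; exact hs.le)
      rw [this, zero_mul, zero_mul]
  rw [e2] at b2
  have b3 : |h * I * B c (U Φ R 0) (U Φ R' 0)| ≤ R * I * K0 +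
      h * I * (Real.sqrt K0 * Real.sqrt K1 / R' * (A * h + 1)) := by
    have := abs_sub_abs_le_abs_sub (h * I * B c (U Φ R 0) (U Φ R' 0))
      (∑ k ∈ IC M, U Φ R 0 k * B c (U Φ h (-k)) (U Φ R' 0))
    linarith
  rw [abs_mul, abs_of_pos (by positivity : 0 < h * I)] at b3
  have b4 : h * I * |B c (U Φ R 0) (U Φ R' 0)| ≤
      h * I * (K0 * (R / h) + Real.sqrt K0 * Real.sqrt K1 * (A * h + 1) / R') := by
    refine b3.trans (le_of_eq ?_)
    field_simp
  exact le_of_mul_le_mul_left b4 (by positivity)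

end Pool.Agent.E8helper28.Gi
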