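import Mathlib

/-! # The quadratic form of a stationary covariance -/

set_option autoImplicit false

open Finset MeasureTheory

namespace Pool.Agent.E8helper28.Gi

/-- the bilinear form with kernel `c (k - l)` -/
noncomputable def B (c : ℤ → ℝ) : LinearMap.BilinForm ℝ (ℤ →₀ ℝ) :=
  Finsupp.linearCombination ℝ fun k : ℤ => Finsupp.linearCombination ℝ fun l : ℤ => c (k - l)

variable {c : ℤ → ℝ}

lemma B_eq (w v : ℤ →₀ ℝ) (S S' : Finset ℤ) (hS : ∀ k, k ∉ S → w k = 0)
    (hS' : ∀ k, k ∉ S' → v k = 0) :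
    B c w v = ∑ k ∈ S, ∑ l ∈ S', w k * v l * c (k - l) := by
  have h1 : w.support ⊆ S := fun k hk => by
    by_contra h
    exact (Finsupp.mem_support_iff.1 hk) (hS k h)
  have h2 : v.support ⊆ S' := fun k hk => by
    by_contra h
    exact (Finsupp.mem_support_iff.1 hk) (hS' k h)
  unfold B
  rw [Finsupp.linearCombination_apply, Finsupp.sum_of_support_subset _ h1 _ (by intro k _; exact zero_smul _ _),
    LinearMap.sum_apply]
  refine Finset.sum_congr rfl fun k _ => ?_
  rw [LinearMap.smul_apply, Finsupp.linearCombination_apply,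
    Finsupp.sum_of_support_subset _ h2 _ (by intro k _; exact zero_smul _ _), smul_eq_mul, Finset.mul_sum]
  refine Finset.sum_congr rfl fun l _ => ?_
  rw [smul_eq_mul]
  ring

lemma B_symm (hc : ∀ k, c (-k) = c k) (w v : ℤ →₀ ℝ) : B c w v = B c v w := by
  have h1 : ∀ k, k ∉ w.support → w k = 0 := fun k hk => Finsupp.notMem_support_iff.1 hk
  have h2 : ∀ k, k ∉ v.support → v k = 0 := fun k hk => Finsupp.notMem_support_iff.1 hk
  rw [B_eq w v _ _ h1 h2, B_eq v w _ _ h2 h1, Finset.sum_comm]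
  refine Finset.sum_congr rfl fun k _ => Finset.sum_congr rfl fun l _ => ?_
  rw [← hc (l - k), neg_sub]
  ring

/-- Cauchy-Schwarz -/
lemma B_cs (hc : ∀ k, c (-k) = c k) (hP : ∀ w, 0 ≤ B c w w) {w v : ℤ →₀ ℝ} {C D : ℝ} (hC : 0 ≤ C)
    (hw : B c w w ≤ C) (hv : B c v v ≤ D) : |B c w v| ≤ Real.sqrt C * Real.sqrt D := by
  have hS : LinearMap.IsSymm (B c) := ⟨fun x y => by rw [RingHom.id_apply]; exact B_symm hc x y⟩
  have h := LinearMap.BilinForm.apply_sq_le_of_symm (B c) hP hS w v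
  rw [← Real.sqrt_mul hC]
  apply Real.abs_le_sqrt
  exact h.trans (mul_le_mul hw hv (hP v) hC)

/-- positivity in coordinates -/
lemma B_pos' (hP : ∀ w, 0 ≤ B c w w) (S : Finset ℤ) (w : ℤ → ℝ) :
    0 ≤ ∑ k ∈ S, ∑ l ∈ S, w k * w l * c (k - l) := by
  classical
  obtain ⟨v, hv⟩ : ∃ v : ℤ →₀ ℝ, v = Finsupp.onFinset S (fun k => if k ∈ S then w k else 0)
    (by intro k hk; by_contra h; rw [if_neg h] at hk; exact hk rfl) := ⟨_, rfl⟩
  have h1 : ∀ k, k ∉ S → v k = 0 := fun k hk => by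
    rw [hv, Finsupp.onFinset_apply, if_neg hk]
  have h2 := hP v
  rw [B_eq v v S S h1 h1] at h2
  refine h2.trans (le_of_eq ?_)
  refine Finset.sum_congr rfl fun k hk => Finset.sum_congr rfl fun l hl => ?_
  rw [hv, Finsupp.onFinset_apply, Finsupp.onFinset_apply, if_pos hk, if_pos hl]

/-- a step function with derivative supported in `[-A, A]` -/
structure Step (Φ Φ' : ℝ → ℝ) (A : ℝ) : Prop where
  A0 : 0 ≤ A
  d : ∀ x, HasDerivAt Φ (Φ' x) x
  c : Continuous Φ'
  z : ∀ x, A ≤ |x| → Φ' x = 0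

variable {Φ Φ' : ℝ → ℝ} {A : ℝ}

lemma Step.right (h : Step Φ Φ' A) {x y : ℝ} (hx : A ≤ x) (hy : A ≤ y) : Φ x = Φ y := by
  wlog hxy : x ≤ y generalizing x y with H
  · exact (H hy hx (le_of_not_ge hxy)).symm
  refine (constant_of_has_deriv_right_zero (f := Φ) (a := x) (b := y)
    (fun s _ => (h.d s).continuousAt.continuousWithinAt) (fun s hs => ?_) y ⟨hxy, le_rfl⟩).symm
  have h1 := h.d s
  rw [h.z s (by rw [abs_of_nonneg (by linarith [h.A0, hs.1])]; linarith [hs.1])] at h1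
  exact h1.hasDerivWithinAt

lemma Step.left (h : Step Φ Φ' A) {x y : ℝ} (hx : x ≤ -A) (hy : y ≤ -A) : Φ x = Φ y := by
  wlog hxy : x ≤ y generalizing x y with H
  · exact (H hy hx (le_of_not_ge hxy)).symm
  refine (constant_of_has_deriv_right_zero (f := Φ) (a := x) (b := y)
    (fun s _ => (h.d s).continuousAt.continuousWithinAt) (fun s hs => ?_) y ⟨hxy, le_rfl⟩).symm
  have h1 := h.d s
  rw [h.z s (by rw [abs_of_nonpos (by linarith [h.A0, hs.2])]; linarith [hs.2])] at h1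
  exact h1.hasDerivWithinAt

/-- the weights at scale `R`, shifted by `t` -/
noncomputable def uf (Φ : ℝ → ℝ) (R t : ℝ) (k : ℤ) : ℝ := R * (Φ ((k + 1 + t) / R) - Φ ((k + t) / R))

lemma uf_zero (h : Step Φ Φ' A) {R t : ℝ} (hR : 0 < R) (k : ℤ) (hk : A * R + 1 ≤ |(k : ℝ) + t|) :
    uf Φ R t k = 0 := by
  unfold uf
  have h1 : Φ ((k + 1 + t) / R) = Φ ((k + t) / R) := by
    rcases le_total 0 ((k : ℝ) + t) with h0 | h0
    · rw [abs_of_nonneg h0] at hk
      apply h.right
      · rw [le_div_iff₀ hR]; linarith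
      · rw [le_div_iff₀ hR]; linarith
    · rw [abs_of_nonpos h0] at hk
      apply h.left
      · rw [div_le_iff₀ hR]; linarith
      · rw [div_le_iff₀ hR]; linarith
  rw [h1, sub_self, mul_zero]

lemma uf_fin (h : Step Φ Φ' A) {R t : ℝ} (hR : 0 < R) : (Function.support (uf Φ R t)).Finite := by
  apply (Set.finite_Icc (-⌈A * R + 1 + |t|⌉ : ℤ) ⌈A * R + 1 + |t|⌉).subset
  intro k hk
  by_contra hcon
  apply hk
  apply uf_zero h hR
  have h1 := Int.le_ceil (A * R + 1 + |t|)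
  have h2 : A * R + 1 + |t| ≤ |(k : ℝ)| := by
    rw [Set.mem_Icc, not_and_or] at hcon
    rcases hcon with h3 | h3
    · push Not at h3
      have h4 : (k : ℝ) < -⌈A * R + 1 + |t|⌉ := by exact_mod_cast h3
      have := neg_le_abs (k : ℝ)
      linarith
    · push Not at h3
      have h4 : (⌈A * R + 1 + |t|⌉ : ℝ) < k := by exact_mod_cast h3
      have := le_abs_self (k : ℝ)
      linarith
  have h3 := abs_sub_abs_le_abs_sub ((k : ℝ) + t) t
  have h4 := abs_sub_abs_le_abs_sub (k : ℝ) (-t)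
  rw [abs_neg, sub_neg_eq_add] at h4
  linarith

/-- the same as an element of the space -/
noncomputable def U (Φ : ℝ → ℝ) (R t : ℝ) : ℤ →₀ ℝ := by
  classical
  exact if h : (Function.support (uf Φ R t)).Finite then Finsupp.ofSupportFinite _ h else 0

lemma U_apply (h : Step Φ Φ' A) {R t : ℝ} (hR : 0 < R) (k : ℤ) : U Φ R t k = uf Φ R t k := by
  unfold U
  rw [dif_pos (uf_fin h hR)]
  rfl

/-- the autocorrelation -/
noncomputable def au (f : ℝ → ℝ) (y : ℝ) : ℝ := ∫ x, f x * f (y + x)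

lemma uf_int (h : Step Φ Φ' A) {R t : ℝ} (hR : 0 < R) (k : ℤ) :
    ∫ θ in (0 : ℝ)..1, Φ' ((k + t + θ) / R) = uf Φ R t k := by
  have h1 : ∀ θ : ℝ, HasDerivAt (fun θ : ℝ => R * Φ ((k + t + θ) / R)) (Φ' ((k + t + θ) / R)) θ := by
    intro θ
    have h2 : HasDerivAt (fun θ : ℝ => (k + t + θ) / R) (1 / R) θ :=
      ((hasDerivAt_id θ).const_add _).div_const R
    have h3 := ((h.d ((k + t + θ) / R)).comp θ h2).const_mul R
    have e : R * (Φ' ((k + t + θ) / R) * (1 / R)) = Φ' ((k + t + θ) / R) := by field_simp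
    rw [e] at h3
    exact h3
  have h4 : Continuous fun θ : ℝ => Φ' ((k + t + θ) / R) := h.c.comp (by fun_prop)
  rw [intervalIntegral.integral_eq_sub_of_hasDerivAt (fun θ _ => h1 θ) (h4.intervalIntegrable _ _)]
  unfold uf
  rw [show (k : ℝ) + t + 1 = k + 1 + t by ring, add_zero]
  ring

lemma sum_unit (g : ℝ → ℝ) (hg : Continuous g) (t : ℝ) (N : ℕ) :
    ∑ l ∈ Icc (-(N : ℤ)) N, ∫ θ in (0 : ℝ)..1, g (l + t + θ) = ∫ x in (-(N : ℝ) + t)..(N + 1 + t), g x := by
  have e : ∀ l : ℤ, ∫ θ in (0 : ℝ)..1, g (l + t + θ) = ∫ x in ((l : ℝ) + t)..(l + 1 + t), g x := by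
    intro l
    rw [intervalIntegral.integral_comp_add_left g ((l : ℝ) + t), add_zero]
    congr 1
    ring
  simp only [e]
  induction N with
  | zero => simp
  | succ N ih =>
    have h1 : Icc (-((N + 1 : ℕ) : ℤ)) ((N + 1 : ℕ) : ℤ) =
        insert (-((N + 1 : ℕ) : ℤ)) (insert ((N + 1 : ℕ) : ℤ) (Icc (-(N : ℤ)) N)) := by
      ext k
      simp only [mem_Icc, mem_insert]
      push_cast
      omega
    rw [h1, Finset.sum_insert, Finset.sum_insert, ih]
    · have i1 := fun a b : ℝ => hg.intervalIntegrable (μ := volume) a b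
      have h2 := intervalIntegral.integral_add_adjacent_intervals (i1 (-(N : ℝ) - 1 + t) (-N + t))
        (i1 (-N + t) (N + 1 + t))
      have h3 := intervalIntegral.integral_add_adjacent_intervals (i1 (-(N : ℝ) - 1 + t) (N + 1 + t))
        (i1 (N + 1 + t) (N + 1 + 1 + t))
      push_cast
      rw [show -((N : ℝ) + 1) + t = -N - 1 + t by ring, show -((N : ℝ) + 1) + 1 + t = -N + t by ring]
      linarith
    · simp
    · simp only [mem_insert, mem_Icc]
      push_cast
      omega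

lemma line_int (h : Step Φ Φ' A) {R t : ℝ} (hR : 0 < R) (j : ℤ) (N : ℕ) (hN : A * R + |t| ≤ N) :
    ∑ l ∈ Icc (-(N : ℤ)) N, ∫ θ in (0 : ℝ)..1, Φ' ((l + t + θ) / R) * Φ' ((j + (l + t + θ)) / R) =
      R * au Φ' (j / R) := by
  have hg : Continuous fun x : ℝ => Φ' (x / R) * Φ' ((j + x) / R) :=
    (h.c.comp (by fun_prop)).mul (h.c.comp (by fun_prop))
  rw [sum_unit (fun x => Φ' (x / R) * Φ' ((j + x) / R)) hg t N]
  have h1 : ∀ x : ℝ, x ∉ Set.Ioc (-(N : ℝ) + t) (N + 1 + t) → Φ' (x / R) * Φ' ((j + x) / R) = 0 := by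
    intro x hx
    have : Φ' (x / R) = 0 := by
      apply h.z
      rw [abs_div, abs_of_pos hR, le_div_iff₀ hR]
      rw [Set.mem_Ioc, not_and_or] at hx
      have ht1 := le_abs_self t
      have ht2 := neg_abs_le t
      rcases hx with hx | hx
      · push Not at hx
        have := neg_le_abs x
        linarith
      · push Not at hx
        have := le_abs_self x
        linarith
    rw [this, zero_mul]
  have h2 : -(N : ℝ) + t ≤ N + 1 + t := by
    have : (0 : ℝ) ≤ N := Nat.cast_nonneg N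
    linarith
  rw [intervalIntegral.integral_of_le h2, ← MeasureTheory.integral_indicator measurableSet_Ioc]
  have h3 : (Set.Ioc (-(N : ℝ) + t) (N + 1 + t)).indicator (fun x => Φ' (x / R) * Φ' ((j + x) / R)) =
      fun x => Φ' (x / R) * Φ' (j / R + x / R) := by
    ext x
    by_cases hx : x ∈ Set.Ioc (-(N : ℝ) + t) (N + 1 + t)
    · rw [Set.indicator_of_mem hx, add_div]
    · rw [Set.indicator_of_notMem hx, ← add_div, h1 x hx]
  rw [h3, MeasureTheory.Measure.integral_comp_div (fun x => Φ' x * Φ' (j / R + x)) R, abs_of_pos hR]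
  rfl

end Pool.Agent.E8helper28.Gi
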