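import Pool.Agent.E8helper28.Gi.Form

/-! # Jensen's inequality for the quadratic form -/

set_option autoImplicit false

open Finset MeasureTheory

namespace Pool.Agent.E8helper28.Gi

variable {c : ℤ → ℝ} {Φ Φ' : ℝ → ℝ} {A : ℝ}

lemma au_zero (h : Step Φ Φ' A) {y : ℝ} (hy : 2 * A ≤ |y|) : au Φ' y = 0 := by
  unfold au
  have : (fun x => Φ' x * Φ' (y + x)) = fun _ => (0 : ℝ) := by
    ext x
    rcases le_or_gt A |x| with hx | hx
    · rw [h.z x hx, zero_mul]
    · rw [h.z (y + x), mul_zero]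
      have := abs_sub_abs_le_abs_sub y (-x)
      rw [abs_neg, sub_neg_eq_add] at this
      linarith
  rw [this, integral_zero]

lemma far (h : Step Φ Φ' A) {R t θ : ℝ} (hR : 0 < R) {N : ℕ} (hN : A * R + |t| + 1 ≤ N) (h0 : 0 ≤ θ)
    (h1 : θ ≤ 1) {k : ℤ} (hk : k ∉ Icc (-(N : ℤ)) N) : Φ' ((k + t + θ) / R) = 0 := by
  apply h.z
  rw [abs_div, abs_of_pos hR, le_div_iff₀ hR]
  have hk2 : (N : ℝ) + 1 ≤ |(k : ℝ)| := by
    rw [mem_Icc, not_and_or] at hk
    rcases hk with h3 | h3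
    · have h4 : (k : ℝ) + 1 ≤ -N := by
        have : k + 1 ≤ -(N : ℤ) := by omega
        exact_mod_cast this
      have := neg_le_abs (k : ℝ)
      linarith
    · have h4 : (N : ℝ) + 1 ≤ k := by
        have : (N : ℤ) + 1 ≤ k := by omega
        exact_mod_cast this
      exact h4.trans (le_abs_self _)
  have h4 := abs_sub_abs_le_abs_sub (k : ℝ) (-(t + θ))
  rw [abs_neg, sub_neg_eq_add, ← add_assoc] at h4
  have h5 := abs_add_le t θ
  rw [abs_of_nonneg h0] at h5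
  linarith

lemma reindex (N : ℕ) (d : ℤ → ℝ) (g : ℤ → ℤ → ℝ) (hg : ∀ k l, k ∉ Icc (-(N : ℤ)) N → g k l = 0) :
    ∑ k ∈ Icc (-(N : ℤ)) N, ∑ l ∈ Icc (-(N : ℤ)) N, d (k - l) * g k l =
      ∑ j ∈ Icc (-((2 * N : ℕ) : ℤ)) ((2 * N : ℕ) : ℤ), d j * ∑ l ∈ Icc (-(N : ℤ)) N, g (l + j) l := by
  rw [Finset.sum_comm]
  simp only [Finset.mul_sum]
  rw [Finset.sum_comm (s := Icc (-((2 * N : ℕ) : ℤ)) ((2 * N : ℕ) : ℤ))]
  refine Finset.sum_congr rfl fun l hl => ?_
  have e1 : ∑ j ∈ Icc (-((2 * N : ℕ) : ℤ)) ((2 * N : ℕ) : ℤ), d j * g (l + j) l =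
      ∑ k ∈ (Icc (-((2 * N : ℕ) : ℤ)) ((2 * N : ℕ) : ℤ)).map (addLeftEmbedding l), d (k - l) * g k l := by
    rw [Finset.sum_map]
    refine Finset.sum_congr rfl fun j _ => ?_
    rw [addLeftEmbedding_apply, add_sub_cancel_left]
  rw [e1]
  apply Finset.sum_subset
  · intro k hk
    rw [Finset.mem_map]
    refine ⟨k - l, ?_, by rw [addLeftEmbedding_apply]; ring⟩
    rw [mem_Icc] at hk hl ⊢
    push_cast
    omega
  · intro k _ hk
    rw [hg k l hk, mul_zero]

/-- Jensen's inequality -/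
theorem jen (hP : ∀ w, 0 ≤ B c w w) (h : Step Φ Φ' A) {R t : ℝ} (hR : 0 < R) {N : ℕ}
    (hN : A * R + |t| + 1 ≤ N) :
    B c (U Φ R t) (U Φ R t) ≤ R * ∑ j ∈ Icc (-((2 * N : ℕ) : ℤ)) ((2 * N : ℕ) : ℤ), au Φ' (j / R) * c j := by
  obtain ⟨S, hS⟩ : ∃ S : Finset ℤ, S = Icc (-(N : ℤ)) N := ⟨_, rfl⟩
  obtain ⟨f, hf⟩ : ∃ f : ℤ → ℝ → ℝ, f = fun (k : ℤ) (θ : ℝ) => Φ' (((k : ℝ) + t + θ) / R) := ⟨_, rfl⟩
  have hfc : ∀ k, Continuous (f k) := by
    intro k
    rw [hf]
    exact h.c.comp (by fun_prop)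
  have hu : ∀ k, ∫ θ in (0 : ℝ)..1, f k θ = uf Φ R t k := by
    intro k
    rw [hf]
    exact uf_int h hR k
  have hi : ∀ g : ℝ → ℝ, Continuous g → IntervalIntegrable g volume 0 1 := fun g hg =>
    hg.intervalIntegrable _ _
  have hfz : ∀ k, k ∉ S → ∀ θ : ℝ, 0 ≤ θ → θ ≤ 1 → f k θ = 0 := by
    intro k hk θ h0 h1
    rw [hf]
    rw [hS] at hk
    exact far h hR hN h0 h1 hk
  have huz : ∀ k, k ∉ S → uf Φ R t k = 0 := by
    intro k hk
    rw [← hu k]
    apply intervalIntegral.integral_zero_ae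
    refine Filter.Eventually.of_forall fun θ hθ => ?_
    rw [Set.uIoc_of_le zero_le_one] at hθ
    exact hfz k hk θ hθ.1.le hθ.2
  have e0 : B c (U Φ R t) (U Φ R t) = ∑ k ∈ S, ∑ l ∈ S, uf Φ R t k * uf Φ R t l * c (k - l) := by
    rw [B_eq _ _ S S (fun k hk => by rw [U_apply h hR, huz k hk]) (fun k hk => by rw [U_apply h hR, huz k hk])]
    simp only [U_apply h hR]
  -- the inequality
  have hpos : 0 ≤ ∫ θ in (0 : ℝ)..1, ∑ k ∈ S, ∑ l ∈ S, (f k θ - uf Φ R t k) * (f l θ - uf Φ R t l) * c (k - l) :=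
    intervalIntegral.integral_nonneg zero_le_one fun θ _ => B_pos' hP S _
  have hterm : ∀ k l, ∫ θ in (0 : ℝ)..1, (f k θ - uf Φ R t k) * (f l θ - uf Φ R t l) * c (k - l) =
      c (k - l) * (∫ θ in (0 : ℝ)..1, f k θ * f l θ) - uf Φ R t k * uf Φ R t l * c (k - l) := by
    intro k l
    have hk := hfc k
    have hl := hfc l
    have e1 : ∀ θ, (f k θ - uf Φ R t k) * (f l θ - uf Φ R t l) * c (k - l) =
        c (k - l) * (f k θ * f l θ) - c (k - l) * uf Φ R t l * f k θ - c (k - l) * uf Φ R t k * f l θ +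
          c (k - l) * uf Φ R t k * uf Φ R t l := fun θ => by ring
    simp only [e1]
    rw [intervalIntegral.integral_add (hi _ (by fun_prop)) (hi _ (by fun_prop)),
      intervalIntegral.integral_sub (hi _ (by fun_prop)) (hi _ (by fun_prop)),
      intervalIntegral.integral_sub (hi _ (by fun_prop)) (hi _ (by fun_prop)),
      intervalIntegral.integral_const_mul, intervalIntegral.integral_const_mul,
      intervalIntegral.integral_const_mul, hu k, hu l, intervalIntegral.integral_const]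
    simp only [sub_zero, one_smul]
    ring
  have hint : ∫ θ in (0 : ℝ)..1, ∑ k ∈ S, ∑ l ∈ S, (f k θ - uf Φ R t k) * (f l θ - uf Φ R t l) * c (k - l) =
      (∑ k ∈ S, ∑ l ∈ S, c (k - l) * (∫ θ in (0 : ℝ)..1, f k θ * f l θ)) -
        ∑ k ∈ S, ∑ l ∈ S, uf Φ R t k * uf Φ R t l * c (k - l) := by
    rw [intervalIntegral.integral_finsetSum]
    · rw [← Finset.sum_sub_distrib]
      refine Finset.sum_congr rfl fun k _ => ?_
      have hk := hfc k
      rw [intervalIntegral.integral_finsetSum]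
      · rw [← Finset.sum_sub_distrib]
        exact Finset.sum_congr rfl fun l _ => hterm k l
      · intro l _
        have hl := hfc l
        exact hi _ (by fun_prop)
    · intro k _
      have hk := hfc k
      refine hi _ (continuous_finsetSum _ fun l _ => ?_)
      have hl := hfc l
      fun_prop
  rw [hint, ← e0] at hpos
  have h2 : B c (U Φ R t) (U Φ R t) ≤ ∑ k ∈ S, ∑ l ∈ S, c (k - l) * (∫ θ in (0 : ℝ)..1, f k θ * f l θ) := by
    linarith
  refine h2.trans (le_of_eq ?_)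
  rw [hS, reindex N c (fun k l => ∫ θ in (0 : ℝ)..1, f k θ * f l θ) (by
    intro k l hk
    apply intervalIntegral.integral_zero_ae
    refine Filter.Eventually.of_forall fun θ hθ => ?_
    rw [Set.uIoc_of_le zero_le_one] at hθ
    rw [hfz k (by rw [hS]; exact hk) θ hθ.1.le hθ.2, zero_mul]), Finset.mul_sum]
  refine Finset.sum_congr rfl fun j _ => ?_
  have h3 := line_int h (t := t) hR j N (by linarith)
  have e2 : ∑ l ∈ Icc (-(N : ℤ)) N, ∫ θ in (0 : ℝ)..1, f (l + j) θ * f l θ = R * au Φ' (j / R) := by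
    rw [← h3]
    refine Finset.sum_congr rfl fun l _ => ?_
    congr 1
    ext θ
    rw [hf]
    simp only
    rw [mul_comm]
    push_cast
    rw [show (l : ℝ) + j + t + θ = j + (l + t + θ) by ring]
  rw [e2]
  ring

/-- in terms of an infinite sum -/
theorem jen' (hP : ∀ w, 0 ≤ B c w w) (h : Step Φ Φ' A) {R : ℝ} (hR : 0 < R) (t : ℝ) :
    B c (U Φ R t) (U Φ R t) ≤ R * ∑' j : ℤ, au Φ' (j / R) * c j := by
  obtain ⟨N, hN⟩ := exists_nat_ge (A * R + |t| + 1)
  refine (jen hP h hR hN).trans (le_of_eq ?_)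
  congr 1
  symm
  apply tsum_eq_sum
  intro j hj
  rw [au_zero h, zero_mul]
  rw [abs_div, abs_of_pos hR, le_div_iff₀ hR]
  have h1 : ((2 * N : ℕ) : ℝ) ≤ |(j : ℝ)| := by
    rw [mem_Icc, not_and_or] at hj
    rcases hj with h3 | h3
    · have h4 : (j : ℝ) ≤ -((2 * N : ℕ) : ℝ) := by
        have : j ≤ -((2 * N : ℕ) : ℤ) := by omega
        exact_mod_cast this
      have := neg_le_abs (j : ℝ)
      linarith
    · have h4 : ((2 * N : ℕ) : ℝ) ≤ j := by
        have : ((2 * N : ℕ) : ℤ) ≤ j := by omega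
        exact_mod_cast this
      exact h4.trans (le_abs_self _)
  push_cast at h1
  have := abs_nonneg t
  linarith

end Pool.Agent.E8helper28.Gi
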