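import Pool.Agent.E8helper28.Gi.Crs

/-! # The weights and the bound for their form -/

set_option autoImplicit false

open Finset MeasureTheory
open scoped ContDiff

namespace Pool.Agent.E8helper28.Gi

/-- a smooth bump -/
noncomputable def bmp : ContDiffBump (0 : ℝ) := ⟨1, 2, one_pos, one_lt_two⟩

/-- the bump as a function -/
noncomputable def ph (x : ℝ) : ℝ := bmp x

/-- its primitive -/
noncomputable def Ph (x : ℝ) : ℝ := ∫ t in (0 : ℝ)..x, ph t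

/-- its derivative -/
noncomputable def dph (x : ℝ) : ℝ := deriv ph x

lemma ph_smooth : ContDiff ℝ ∞ ph := bmp.contDiff

lemma ph_cont : Continuous ph := ph_smooth.continuous

lemma ph_nonneg (x : ℝ) : 0 ≤ ph x := bmp.nonneg

lemma ph_le (x : ℝ) : ph x ≤ 1 := bmp.le_one

lemma ph_one {x : ℝ} (h : |x| ≤ 1) : ph x = 1 := by
  apply bmp.one_of_mem_closedBall
  rw [Metric.mem_closedBall, Real.dist_eq, sub_zero]
  exact h

lemma ph_zero {x : ℝ} (h : 2 ≤ |x|) : ph x = 0 := by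
  apply bmp.zero_of_le_dist
  rw [Real.dist_eq, sub_zero]
  exact h

lemma Ph_deriv (x : ℝ) : HasDerivAt Ph (ph x) x :=
  intervalIntegral.integral_hasDerivAt_right (ph_cont.intervalIntegrable _ _)
    (ph_cont.stronglyMeasurableAtFilter _ _) ph_cont.continuousAt

lemma ph_deriv (x : ℝ) : HasDerivAt ph (dph x) x :=
  (ph_smooth.differentiable (by simp)).differentiableAt.hasDerivAt

lemma dph_smooth : ContDiff ℝ ∞ dph := by
  have h := ph_smooth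
  have h2 : ContDiff ℝ (∞ + 1) ph := by simpa using h
  exact (contDiff_succ_iff_deriv.1 h2).2.2

lemma step0 : Step Ph ph 2 := ⟨by norm_num, Ph_deriv, ph_cont, fun _ hx => ph_zero hx⟩

lemma step1 : Step ph dph 2 := by
  refine ⟨by norm_num, ph_deriv, dph_smooth.continuous, fun x hx => ?_⟩
  have h1 : IsLocalMin ph x := by
    refine Filter.Eventually.of_forall fun y => ?_
    rw [ph_zero hx]
    exact ph_nonneg y
  exact h1.hasDerivAt_eq_zero (ph_deriv x)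

lemma I_pos : 0 < Ph 2 - Ph (-2) := by
  unfold Ph
  rw [intervalIntegral.integral_interval_sub_left (ph_cont.intervalIntegrable _ _)
    (ph_cont.intervalIntegrable _ _)]
  have h1 : ∫ t in (-1 : ℝ)..1, ph t ≤ ∫ t in (-2 : ℝ)..2, ph t :=
    intervalIntegral.integral_mono_interval (by norm_num) (by norm_num) (by norm_num)
      (Filter.Eventually.of_forall fun x => ph_nonneg x) (ph_cont.intervalIntegrable _ _)
  have h2 : ∫ t in (-1 : ℝ)..1, ph t = ∫ t in (-1 : ℝ)..1, (1 : ℝ) := by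
    apply intervalIntegral.integral_congr
    intro x hx
    rw [Set.uIcc_of_le (by norm_num), Set.mem_Icc] at hx
    exact ph_one (abs_le.2 ⟨hx.1, hx.2⟩)
  rw [h2] at h1
  norm_num at h1
  linarith

/-- the weights: an average over dyadic scales -/
noncomputable def W (m J : ℕ) : ℤ →₀ ℝ := (1 / J : ℝ) • ∑ j ∈ Icc 1 J, U Ph (2 ^ j * m) 0

lemma U_le {R : ℝ} (hR : 0 < R) (t : ℝ) (k : ℤ) : U Ph R t k ≤ 1 := by
  rw [U_apply step0 hR, ← uf_int step0 hR]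
  have h4 : Continuous fun θ : ℝ => ph ((k + t + θ) / R) := ph_cont.comp (by fun_prop)
  have := intervalIntegral.integral_mono_on (a := 0) (b := 1) (μ := volume) zero_le_one
    (h4.intervalIntegrable _ _) (continuous_const.intervalIntegrable _ _ (u := fun _ : ℝ => (1 : ℝ)))
    (fun θ _ => ph_le ((k + t + θ) / R))
  refine this.trans (le_of_eq ?_)
  rw [intervalIntegral.integral_const, sub_zero, one_smul]

lemma U_one {R : ℝ} (hR : 0 < R) {k : ℤ} (h0 : 0 ≤ k) (h1 : (k : ℝ) + 1 ≤ R) : U Ph R 0 k = 1 := by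
  rw [U_apply step0 hR, ← uf_int step0 hR]
  have : ∫ θ in (0 : ℝ)..1, ph ((k + 0 + θ) / R) = ∫ θ in (0 : ℝ)..1, (1 : ℝ) := by
    apply intervalIntegral.integral_congr
    intro θ hθ
    rw [Set.uIcc_of_le zero_le_one, Set.mem_Icc] at hθ
    apply ph_one
    have h0' : (0 : ℝ) ≤ k := by exact_mod_cast h0
    rw [abs_div, abs_of_pos hR, div_le_one hR, abs_of_nonneg (by linarith [hθ.1])]
    linarith [hθ.2]
  rw [this, intervalIntegral.integral_const, sub_zero, one_smul]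

lemma W_apply (m J : ℕ) (k : ℤ) : W m J k = (1 / J : ℝ) * ∑ j ∈ Icc 1 J, U Ph (2 ^ j * m) 0 k := by
  unfold W
  rw [Finsupp.smul_apply, Finsupp.finsetSum_apply, smul_eq_mul]

lemma pw_pos {m : ℕ} (hm : 1 ≤ m) (j : ℕ) : (0 : ℝ) < 2 ^ j * m := by
  have : (1 : ℝ) ≤ m := by exact_mod_cast hm
  positivity

lemma W_nonneg {m J : ℕ} (hm : 1 ≤ m) (k : ℤ) : 0 ≤ W m J k := by
  rw [W_apply]
  exact mul_nonneg (by positivity) (Finset.sum_nonneg fun j _ => U_nonneg step0 ph_nonneg (pw_pos hm j) 0 k)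

lemma W_le {m J : ℕ} (hm : 1 ≤ m) (hJ : 1 ≤ J) (k : ℤ) : W m J k ≤ 1 := by
  rw [W_apply]
  have h1 : ∑ j ∈ Icc 1 J, U Ph (2 ^ j * m) 0 k ≤ ∑ j ∈ Icc 1 J, (1 : ℝ) :=
    Finset.sum_le_sum fun j _ => U_le (pw_pos hm j) 0 k
  rw [Finset.sum_const, Nat.card_Icc, nsmul_eq_mul, mul_one, Nat.add_sub_cancel] at h1
  have hJ' : (0 : ℝ) < J := by exact_mod_cast hJ
  rw [one_div, inv_mul_le_iff₀ hJ', mul_one]
  exact h1

lemma W_one {m J : ℕ} (hm : 1 ≤ m) (hJ : 1 ≤ J) {k : ℤ} (h0 : 0 ≤ k) (h1 : k < m) : W m J k = 1 := by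
  rw [W_apply]
  have h2 : ∑ j ∈ Icc 1 J, U Ph (2 ^ j * m) 0 k = ∑ j ∈ Icc 1 J, (1 : ℝ) := by
    refine Finset.sum_congr rfl fun j _ => U_one (pw_pos hm j) h0 ?_
    have h3 : k + 1 ≤ m := by omega
    have h4 : (k : ℝ) + 1 ≤ m := by exact_mod_cast h3
    have h5 : (1 : ℝ) ≤ 2 ^ j := one_le_pow₀ (by norm_num)
    have h6 : (0 : ℝ) ≤ m := Nat.cast_nonneg m
    nlinarith
  rw [h2, Finset.sum_const, Nat.card_Icc, nsmul_eq_mul, mul_one, Nat.add_sub_cancel]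
  have hJ' : (0 : ℝ) < J := by exact_mod_cast hJ
  field_simp

lemma W_zero {m J : ℕ} (hm : 1 ≤ m) {k : ℤ} (hk : 2 ^ (J + 2) * (m : ℝ) ≤ |(k : ℝ)|) : W m J k = 0 := by
  rw [W_apply, Finset.sum_eq_zero, mul_zero]
  intro j hj
  rw [mem_Icc] at hj
  rw [U_apply step0 (pw_pos hm j)]
  apply uf_zero step0 (pw_pos hm j)
  rw [add_zero]
  refine le_trans ?_ hk
  have hm' : (1 : ℝ) ≤ m := by exact_mod_cast hm
  have h1 : (2 : ℝ) ^ j ≤ 2 ^ J := pow_le_pow_right₀ (by norm_num) hj.2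
  have h2 : (1 : ℝ) ≤ 2 ^ J := one_le_pow₀ (by norm_num)
  rw [pow_add]
  nlinarith

variable {c : ℤ → ℝ} {Φ Φ' φ φ' : ℝ → ℝ}

lemma dyad (hc : ∀ k, c (-k) = c k) (hP : ∀ w, 0 ≤ B c w w) (h0 : Step Φ φ 2) (h1 : Step φ φ' 2)
    (hφ : ∀ x, 0 ≤ φ x) (hI : 0 < Φ 2 - Φ (-2)) {K0 K1 : ℝ} (hK0 : 0 ≤ K0)
    (hn0 : ∀ R : ℝ, 2 ≤ R → ∀ t, B c (U Φ R t) (U Φ R t) ≤ K0)
    (hn1 : ∀ R : ℝ, 2 ≤ R → ∀ t, B c (U φ R t) (U φ R t) ≤ K1) {R : ℝ} (hR : 2 ≤ R) (d : ℕ) :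
    |B c (U Φ R 0) (U Φ (2 ^ d * R) 0)| ≤ (K0 + 3 * (Real.sqrt K0 * Real.sqrt K1)) * (Real.sqrt 2)⁻¹ ^ d := by
  obtain ⟨q, hq⟩ : ∃ q : ℝ, q = Real.sqrt 2 ^ d := ⟨_, rfl⟩
  have hs : (1 : ℝ) ≤ Real.sqrt 2 := by
    rw [Real.one_le_sqrt]; norm_num
  have hq1 : 1 ≤ q := by rw [hq]; exact one_le_pow₀ hs
  have hq2 : (2 : ℝ) ^ d = q * q := by
    rw [hq, ← mul_pow, Real.mul_self_sqrt (by norm_num)]
  rw [inv_pow, ← hq, hq2]
  have hR' : 2 ≤ q * q * R := by nlinarith [mul_le_mul hq1 hq1 zero_le_one (by linarith)]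
  have hh : 2 ≤ q * R := by nlinarith
  refine (cross hc hP h0 h1 hφ hI hK0 hn0 hn1 hR hR' hh).trans ?_
  have e1 : R / (q * R) = q⁻¹ := by
    have : R ≠ 0 := by linarith
    field_simp
  have hss : 0 ≤ Real.sqrt K0 * Real.sqrt K1 := by positivity
  have e2 : Real.sqrt K0 * Real.sqrt K1 * (2 * (q * R) + 1) / (q * q * R) ≤
      3 * (Real.sqrt K0 * Real.sqrt K1) * q⁻¹ := by
    rw [div_le_iff₀ (by linarith)]
    have e3 : 3 * (Real.sqrt K0 * Real.sqrt K1) * q⁻¹ * (q * q * R) =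
        Real.sqrt K0 * Real.sqrt K1 * (3 * (q * R)) := by
      have : q ≠ 0 := by linarith
      field_simp
    rw [e3]
    apply mul_le_mul_of_nonneg_left _ hss
    linarith
  rw [e1, add_mul]
  linarith

lemma geo {r : ℝ} (hr0 : 0 ≤ r) (hr1 : r < 1) (i J : ℕ) :
    ∑ j ∈ Icc 1 J, r ^ ((i - j) + (j - i)) ≤ 2 * (1 - r)⁻¹ := by
  have hsum := summable_geometric_of_lt_one hr0 hr1
  have ht := tsum_geometric_of_lt_one hr0 hr1
  have key : ∀ (s : Finset ℕ) (g : ℕ → ℕ), Set.InjOn g s → ∑ j ∈ s, r ^ g j ≤ (1 - r)⁻¹ := by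
    intro s g hg
    rw [← Finset.sum_image (f := fun n => r ^ n) hg, ← ht]
    exact hsum.sum_le_tsum _ (fun n _ => pow_nonneg hr0 n)
  rw [← Finset.sum_filter_add_sum_filter_not (Icc 1 J) (fun j => j ≤ i)]
  have h1 := key ((Icc 1 J).filter (fun j => j ≤ i)) (fun j => (i - j) + (j - i)) (by
    intro a ha b hb hab
    simp only [coe_filter, mem_Icc, Set.mem_ofPred_eq] at ha hb hab
    omega)
  have h2 := key ((Icc 1 J).filter (fun j => ¬ j ≤ i)) (fun j => (i - j) + (j - i)) (by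
    intro a ha b hb hab
    simp only [coe_filter, mem_Icc, Set.mem_ofPred_eq] at ha hb hab
    omega)
  linarith

theorem main_abs {K0 K1 : ℝ} (hK0 : 0 ≤ K0) : ∃ C : ℝ, 0 < C ∧ ∀ m : ℕ, 1 ≤ m → ∀ J : ℕ, 1 ≤ J →
    ∀ c : ℤ → ℝ, (∀ k, c (-k) = c k) → (∀ w, 0 ≤ B c w w) →
    (∀ R : ℝ, 2 ≤ R → R * ∑' j : ℤ, au ph (j / R) * c j ≤ K0) →
    (∀ R : ℝ, 2 ≤ R → R * ∑' j : ℤ, au dph (j / R) * c j ≤ K1) →
    B c (W m J) (W m J) ≤ C / J := by
  obtain ⟨r, hr⟩ : ∃ r : ℝ, r = (Real.sqrt 2)⁻¹ := ⟨_, rfl⟩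
  have hs : (1 : ℝ) < Real.sqrt 2 := by
    rw [Real.lt_sqrt (by norm_num)]; norm_num
  have hr0 : 0 ≤ r := by rw [hr]; positivity
  have hr1 : r < 1 := by rw [hr]; exact inv_lt_one_of_one_lt₀ hs
  obtain ⟨D, hD⟩ : ∃ D, D = K0 + 3 * (Real.sqrt K0 * Real.sqrt K1) := ⟨_, rfl⟩
  have hD0 : 0 ≤ D := by rw [hD]; positivity
  have hr2 : 0 < 2 * (1 - r)⁻¹ := by
    have : 0 < 1 - r := by linarith
    positivity
  refine ⟨D * (2 * (1 - r)⁻¹) + 1, by positivity, fun m hm J hJ c hc hP hn0 hn1 => ?_⟩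
  have h0 : ∀ R : ℝ, 2 ≤ R → ∀ t, B c (U Ph R t) (U Ph R t) ≤ K0 := fun R hR t =>
    (jen' hP step0 (by linarith) t).trans (hn0 R hR)
  have h1 : ∀ R : ℝ, 2 ≤ R → ∀ t, B c (U ph R t) (U ph R t) ≤ K1 := fun R hR t =>
    (jen' hP step1 (by linarith) t).trans (hn1 R hR)
  have hm' : (1 : ℝ) ≤ m := by exact_mod_cast hm
  have hR2 : ∀ i : ℕ, 1 ≤ i → (2 : ℝ) ≤ 2 ^ i * m := by
    intro i hi
    have : (2 : ℝ) ^ 1 ≤ 2 ^ i := pow_le_pow_right₀ (by norm_num) hi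
    nlinarith
  have hle : ∀ i j : ℕ, 1 ≤ i → i ≤ j → |B c (U Ph (2 ^ i * m) 0) (U Ph (2 ^ j * m) 0)| ≤ D * r ^ (j - i) := by
    intro i j hi hij
    have h2 := dyad hc hP step0 step1 ph_nonneg I_pos hK0 h0 h1 (hR2 i hi) (j - i)
    have e1 : (2 : ℝ) ^ (j - i) * (2 ^ i * m) = 2 ^ j * m := by
      rw [← mul_assoc, ← pow_add, Nat.sub_add_cancel hij]
    rw [e1, ← hD, ← hr] at h2
    exact h2
  have hall : ∀ i j : ℕ, 1 ≤ i → 1 ≤ j → B c (U Ph (2 ^ i * m) 0) (U Ph (2 ^ j * m) 0) ≤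
      D * r ^ ((i - j) + (j - i)) := by
    intro i j hi hj
    rcases le_total i j with h | h
    · rw [Nat.sub_eq_zero_of_le h, zero_add]
      exact (le_abs_self _).trans (hle i j hi h)
    · rw [Nat.sub_eq_zero_of_le h, add_zero, B_symm hc]
      exact (le_abs_self _).trans (hle j i hj h)
  have e2 : B c (W m J) (W m J) = (1 / J : ℝ) * ((1 / J : ℝ) *
      ∑ i ∈ Icc 1 J, ∑ j ∈ Icc 1 J, B c (U Ph (2 ^ i * m) 0) (U Ph (2 ^ j * m) 0)) := by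
    unfold W
    rw [map_smul, map_smul, LinearMap.smul_apply, smul_eq_mul, smul_eq_mul, map_sum, map_sum]
    congr 2
    simp only [LinearMap.sum_apply]
    exact Finset.sum_comm
  have h3 : ∑ i ∈ Icc 1 J, ∑ j ∈ Icc 1 J, B c (U Ph (2 ^ i * m) 0) (U Ph (2 ^ j * m) 0) ≤
      J * (D * (2 * (1 - r)⁻¹)) := by
    have h4 : ∀ i ∈ Icc 1 J, ∑ j ∈ Icc 1 J, B c (U Ph (2 ^ i * m) 0) (U Ph (2 ^ j * m) 0) ≤
        D * (2 * (1 - r)⁻¹) := by
      intro i hi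
      refine (Finset.sum_le_sum fun j hj => hall i j (mem_Icc.1 hi).1 (mem_Icc.1 hj).1).trans ?_
      rw [← Finset.mul_sum]
      exact mul_le_mul_of_nonneg_left (geo hr0 hr1 i J) hD0
    refine (Finset.sum_le_sum h4).trans (le_of_eq ?_)
    rw [Finset.sum_const, Nat.card_Icc, nsmul_eq_mul, Nat.add_sub_cancel]
  have hJ' : (0 : ℝ) < J := by exact_mod_cast hJ
  rw [e2]
  calc (1 / J : ℝ) * ((1 / J : ℝ) * ∑ i ∈ Icc 1 J, ∑ j ∈ Icc 1 J, B c (U Ph (2 ^ i * m) 0) (U Ph (2 ^ j * m) 0))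
      ≤ (1 / J : ℝ) * ((1 / J : ℝ) * (J * (D * (2 * (1 - r)⁻¹)))) := by
        apply mul_le_mul_of_nonneg_left _ (by positivity)
        apply mul_le_mul_of_nonneg_left h3 (by positivity)
    _ = (D * (2 * (1 - r)⁻¹)) / J := by field_simp
    _ ≤ (D * (2 * (1 - r)⁻¹) + 1) / J := by
        apply div_le_div_of_nonneg_right _ hJ'.le
        linarith

end Pool.Agent.E8helper28.Gi
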