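import Pool.Agent.E8helper28.Gi.Mai

/-! # Passage to the limit along an ultrafilter -/

set_option autoImplicit false

open Finset MeasureTheory Filter
open scoped ContDiff Topology

namespace Pool.Agent.E8helper28.Gi

/-- autocovariance of a sequence -/
noncomputable def cx (x : ℕ → ℝ) (N k : ℕ) : ℝ := (1 / N : ℝ) * ∑ n ∈ Icc 1 N, x n * x (n + k)

/-- the same for shifted sequences -/
noncomputable def sx (x : ℕ → ℝ) (N k l : ℕ) : ℝ := (1 / N : ℝ) * ∑ n ∈ Icc 1 N, x (n + k) * x (n + l)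

lemma small (a : ℕ) : Tendsto (fun N : ℕ => (1 / N : ℝ) * (1 + Real.log ((N + a : ℕ) : ℝ)) ^ 2) atTop (𝓝 0) := by
  have h1 : Tendsto (fun x : ℝ => Real.log x ^ 2 / x) atTop (𝓝 0) :=
    (Real.isLittleO_pow_log_id_atTop (n := 2)).tendsto_div_nhds_zero
  have h2 : Tendsto (fun N : ℕ => ((N + a : ℕ) : ℝ)) atTop atTop :=
    tendsto_natCast_atTop_atTop.comp (tendsto_add_atTop_nat a)
  have h3 := (h1.comp h2).const_mul (2 * (1 + a : ℝ))
  have h4 := (tendsto_const_div_atTop_nhds_zero_nat (2 : ℝ)).add h3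
  rw [mul_zero, add_zero] at h4
  refine squeeze_zero' (Eventually.of_forall fun N => by positivity) ?_ h4
  filter_upwards [eventually_ge_atTop 1] with N hN
  have hN' : (1 : ℝ) ≤ N := by exact_mod_cast hN
  have ha : (0 : ℝ) ≤ a := Nat.cast_nonneg a
  simp only [Function.comp]
  obtain ⟨L, hL⟩ : ∃ L, L = Real.log ((N + a : ℕ) : ℝ) := ⟨_, rfl⟩
  rw [← hL]
  push_cast
  have e1 : (1 + L) ^ 2 ≤ 2 + 2 * L ^ 2 := by nlinarith [sq_nonneg (1 - L)]
  have e2 : (1 / N : ℝ) ≤ (1 + a) / (N + a) := by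
    rw [div_le_div_iff₀ (by linarith) (by linarith)]
    nlinarith
  calc (1 / N : ℝ) * (1 + L) ^ 2 ≤ (1 / N : ℝ) * (2 + 2 * L ^ 2) :=
        mul_le_mul_of_nonneg_left e1 (by positivity)
    _ = 2 / N + (1 / N : ℝ) * (2 * L ^ 2) := by ring
    _ ≤ 2 / N + (1 + a) / (N + a) * (2 * L ^ 2) := by
        have := mul_le_mul_of_nonneg_right e2 (by positivity : 0 ≤ 2 * L ^ 2)
        linarith
    _ = _ := by ring

variable {x : ℕ → ℝ} {C : ℝ}

lemma edge0 (hx : ∀ n, 1 ≤ n → |x n| ≤ C * (1 + Real.log n)) (d k : ℕ) :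
    Tendsto (fun N : ℕ => (1 / N : ℝ) * (x (N + 1 + k) * x (N + 1 + k + d))) atTop (𝓝 0) := by
  have h1 := (small (1 + k + d)).const_mul (C ^ 2)
  rw [mul_zero] at h1
  refine squeeze_zero_norm' ?_ h1
  filter_upwards [eventually_ge_atTop 1] with N hN
  have hC : 0 ≤ C := by
    have := (abs_nonneg (x 1)).trans (hx 1 le_rfl)
    simpa using this
  have hb : ∀ e : ℕ, e ≤ d → |x (N + 1 + k + e)| ≤ C * (1 + Real.log ((N + (1 + k + d) : ℕ) : ℝ)) := by
    intro e he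
    refine (hx _ (by omega)).trans ?_
    apply mul_le_mul_of_nonneg_left _ hC
    have : Real.log ((N + 1 + k + e : ℕ) : ℝ) ≤ Real.log ((N + (1 + k + d) : ℕ) : ℝ) := by
      apply Real.log_le_log
      · exact_mod_cast (by omega : 0 < N + 1 + k + e)
      · exact_mod_cast (by omega : N + 1 + k + e ≤ N + (1 + k + d))
    linarith
  have h2 := hb 0 (by omega)
  have h3 := hb d le_rfl
  rw [add_zero] at h2
  rw [Real.norm_eq_abs, abs_mul, abs_mul, abs_of_nonneg (by positivity : (0 : ℝ) ≤ 1 / N)]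
  calc (1 / N : ℝ) * (|x (N + 1 + k)| * |x (N + 1 + k + d)|)
      ≤ (1 / N : ℝ) * ((C * (1 + Real.log ((N + (1 + k + d) : ℕ) : ℝ))) *
          (C * (1 + Real.log ((N + (1 + k + d) : ℕ) : ℝ)))) := by
        apply mul_le_mul_of_nonneg_left _ (by positivity)
        exact mul_le_mul h2 h3 (abs_nonneg _) ((abs_nonneg _).trans h2)
    _ = _ := by ring

lemma tele (y : ℕ → ℝ) (N k : ℕ) : ∑ n ∈ Icc 1 N, y (n + (k + 1)) =
    ∑ n ∈ Icc 1 N, y (n + k) + (y (N + 1 + k) - y (1 + k)) := by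
  induction N with
  | zero => simp
  | succ N ih =>
    rw [Finset.sum_Icc_succ_top (by omega), Finset.sum_Icc_succ_top (by omega), ih]
    have e : N + 1 + (k + 1) = N + 1 + 1 + k := by ring
    rw [e]
    ring

lemma edge1 (hx : ∀ n, 1 ≤ n → |x n| ≤ C * (1 + Real.log n)) (d k : ℕ) :
    Tendsto (fun N : ℕ => (1 / N : ℝ) * ∑ n ∈ Icc 1 N, x (n + k) * x (n + k + d) - cx x N d) atTop (𝓝 0) := by
  induction k with
  | zero =>
    unfold cx
    simp
  | succ k ih =>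
    have h1 := edge0 hx d k
    have h2 : Tendsto (fun N : ℕ => (1 / N : ℝ) * (x (1 + k) * x (1 + k + d))) atTop (𝓝 0) := by
      have := tendsto_const_div_atTop_nhds_zero_nat (x (1 + k) * x (1 + k + d))
      refine this.congr fun N => ?_
      ring
    have h3 := (ih.add h1).sub h2
    rw [add_zero, sub_zero] at h3
    refine h3.congr fun N => ?_
    rw [tele (fun n => x n * x (n + d)) N k]
    ring

lemma edge (hx : ∀ n, 1 ≤ n → |x n| ≤ C * (1 + Real.log n)) (k l : ℕ) :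
    Tendsto (fun N : ℕ => sx x N k l - cx x N ((k : ℤ) - l).natAbs) atTop (𝓝 0) := by
  rcases le_total k l with h | h
  · obtain ⟨d, rfl⟩ := Nat.exists_eq_add_of_le h
    have e : ((k : ℤ) - ((k + d : ℕ) : ℤ)).natAbs = d := by push_cast; omega
    rw [e]
    refine (edge1 hx d k).congr fun N => ?_
    unfold sx
    simp only [add_assoc]
  · obtain ⟨d, rfl⟩ := Nat.exists_eq_add_of_le h
    have e : (((l + d : ℕ) : ℤ) - (l : ℤ)).natAbs = d := by push_cast; omega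
    rw [e]
    refine (edge1 hx d l).congr fun N => ?_
    unfold sx
    congr 2
    refine Finset.sum_congr rfl fun n _ => ?_
    rw [← add_assoc, mul_comm]

/-- the mean square of a linear form -/
noncomputable def msq (x : ℕ → ℝ) (w : ℕ → ℝ) (M N : ℕ) : ℝ :=
  (1 / N : ℝ) * ∑ n ∈ Icc 1 N, (∑ k ∈ range M, w k * x (n + k)) ^ 2

lemma msq_eq (w : ℕ → ℝ) (M N : ℕ) :
    msq x w M N = ∑ k ∈ range M, ∑ l ∈ range M, w k * w l * sx x N k l := by
  unfold msq sx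
  have e1 : ∀ n : ℕ, (∑ k ∈ range M, w k * x (n + k)) ^ 2 =
      ∑ k ∈ range M, ∑ l ∈ range M, w k * w l * (x (n + k) * x (n + l)) := by
    intro n
    rw [sq, Finset.sum_mul_sum]
    refine Finset.sum_congr rfl fun k _ => Finset.sum_congr rfl fun l _ => ?_
    ring
  simp only [e1]
  rw [Finset.sum_comm, Finset.mul_sum]
  refine Finset.sum_congr rfl fun k _ => ?_
  rw [Finset.sum_comm, Finset.mul_sum]
  refine Finset.sum_congr rfl fun l _ => ?_
  rw [← Finset.mul_sum]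
  ring

lemma msq_nonneg (w : ℕ → ℝ) (M N : ℕ) : 0 ≤ msq x w M N := by
  unfold msq
  exact mul_nonneg (by positivity) (Finset.sum_nonneg fun _ _ => sq_nonneg _)

lemma msq_lim (hx : ∀ n, 1 ≤ n → |x n| ≤ C * (1 + Real.log n)) {F : Filter ℕ} (hF : F ≤ atTop)
    {c0 : ℕ → ℝ} (hc0 : ∀ k, Tendsto (fun N => cx x N k) F (𝓝 (c0 k))) (w : ℕ → ℝ) (M : ℕ) :
    Tendsto (fun N => msq x w M N) F
      (𝓝 (∑ k ∈ range M, ∑ l ∈ range M, w k * w l * c0 ((k : ℤ) - l).natAbs)) := by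
  simp only [msq_eq]
  refine tendsto_finsetSum _ fun k _ => tendsto_finsetSum _ fun l _ => ?_
  apply Tendsto.const_mul
  have h1 := ((edge hx k l).mono_left hF).add (hc0 ((k : ℤ) - l).natAbs)
  rw [zero_add] at h1
  refine h1.congr fun N => ?_
  ring

/-- relation with the form -/
lemma form_eq (c0 : ℕ → ℝ) (w : ℤ →₀ ℝ) (K : ℕ) (hw : ∀ k : ℤ, (K : ℤ) ≤ |k| → w k = 0) :
    B (fun k => c0 k.natAbs) w w =
      ∑ k ∈ range (2 * K), ∑ l ∈ range (2 * K), w ((k : ℤ) - K) * w ((l : ℤ) - K) * c0 ((k : ℤ) - l).natAbs := by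
  obtain ⟨e, he⟩ : ∃ e : ℕ ↪ ℤ, ∀ k, e k = (k : ℤ) - K :=
    ⟨⟨fun k => (k : ℤ) - K, fun a b h => by simpa using h⟩, fun _ => rfl⟩
  have hz : ∀ k, k ∉ (range (2 * K)).map e → w k = 0 := by
    intro k hk
    by_contra hne
    apply hk
    rw [Finset.mem_map]
    have h1 : |k| < K := by
      by_contra h
      exact hne (hw k (not_lt.1 h))
    rw [abs_lt] at h1
    refine ⟨(k + K).toNat, ?_, ?_⟩
    · rw [mem_range]
      omega
    · rw [he]
      omega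
  rw [B_eq w w _ _ hz hz, Finset.sum_map]
  refine Finset.sum_congr rfl fun k _ => ?_
  rw [Finset.sum_map]
  refine Finset.sum_congr rfl fun l _ => ?_
  rw [he, he, show (k : ℤ) - K - (l - K) = k - l by ring]

lemma msq_form (hx : ∀ n, 1 ≤ n → |x n| ≤ C * (1 + Real.log n)) {F : Filter ℕ} (hF : F ≤ atTop)
    {c0 : ℕ → ℝ} (hc0 : ∀ k, Tendsto (fun N => cx x N k) F (𝓝 (c0 k))) (w : ℤ →₀ ℝ) (K : ℕ)
    (hw : ∀ k : ℤ, (K : ℤ) ≤ |k| → w k = 0) :
    Tendsto (fun N => msq x (fun k => w ((k : ℤ) - K)) (2 * K) N) F (𝓝 (B (fun k => c0 k.natAbs) w w)) := by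
  rw [form_eq c0 w K hw]
  exact msq_lim hx hF hc0 _ _

lemma psd (hx : ∀ n, 1 ≤ n → |x n| ≤ C * (1 + Real.log n)) {F : Filter ℕ} [F.NeBot] (hF : F ≤ atTop)
    {c0 : ℕ → ℝ} (hc0 : ∀ k, Tendsto (fun N => cx x N k) F (𝓝 (c0 k))) (w : ℤ →₀ ℝ) :
    0 ≤ B (fun k => c0 k.natAbs) w w := by
  obtain ⟨K, hK⟩ : ∃ K : ℕ, ∀ k ∈ w.support, k.natAbs < K := by
    refine ⟨w.support.sup Int.natAbs + 1, fun k hk => ?_⟩
    exact Nat.lt_succ_of_le (Finset.le_sup (f := Int.natAbs) hk)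
  have hw : ∀ k : ℤ, (K : ℤ) ≤ |k| → w k = 0 := by
    intro k hk
    by_contra hne
    have h1 := hK k (Finsupp.mem_support_iff.2 hne)
    rw [Int.abs_eq_natAbs] at hk
    omega
  exact ge_of_tendsto' (msq_form hx hF hc0 w K hw) fun N => msq_nonneg _ _ _

/-- the law of the covariances -/
def LawX (x : ℕ → ℝ) (L : (ℝ → ℝ) → ℝ) : Prop := ∀ G : ℝ → ℝ, ContDiff ℝ ∞ G → HasCompactSupport G →
  (∀ x, G (-x) = G x) → ∃ C : ℝ, 0 < C ∧ ∀ R : ℝ, 2 ≤ R → ∀ ε : ℝ, 0 < ε → ∀ᶠ N : ℕ in atTop,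
    |R * ∑' k : ℤ, G (k / R) * cx x N k.natAbs - L G| ≤ C * Real.log R ^ 2 / R + ε

lemma log_bd {R : ℝ} (hR : 2 ≤ R) : Real.log R ^ 2 / R ≤ 4 := by
  rw [div_le_iff₀ (by linarith)]
  have h0 : 0 < Real.sqrt R := Real.sqrt_pos.2 (by linarith)
  have h1 := Real.log_le_sub_one_of_pos h0
  rw [Real.log_sqrt (by linarith)] at h1
  have h2 : 0 ≤ Real.log R := Real.log_nonneg (by linarith)
  have h3 := Real.mul_self_sqrt (by linarith : 0 ≤ R)
  nlinarith

lemma ts_eq {G : ℝ → ℝ} {A : ℝ} (hG : ∀ y, A ≤ |y| → G y = 0) {R : ℝ} (hR : 0 < R) {M : ℕ} (hM : A * R ≤ M)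
    (c : ℤ → ℝ) : ∑' k : ℤ, G (k / R) * c k = ∑ k ∈ IC M, G (k / R) * c k := by
  apply tsum_eq_sum
  intro k hk
  rw [hG, zero_mul]
  rw [abs_div, abs_of_pos hR, le_div_iff₀ hR]
  have := ic_out hk
  linarith

lemma law_lim {L : (ℝ → ℝ) → ℝ} {G : ℝ → ℝ} {A D : ℝ} (hG : ∀ y, A ≤ |y| → G y = 0)
    (hD : ∀ R : ℝ, 2 ≤ R → ∀ ε : ℝ, 0 < ε → ∀ᶠ N : ℕ in atTop,
      |R * ∑' k : ℤ, G (k / R) * cx x N k.natAbs - L G| ≤ D * Real.log R ^ 2 / R + ε) (hD0 : 0 < D)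
    {F : Filter ℕ} [F.NeBot] (hF : F ≤ atTop)
    {c0 : ℕ → ℝ} (hc0 : ∀ k, Tendsto (fun N => cx x N k) F (𝓝 (c0 k))) {R : ℝ} (hR : 2 ≤ R) :
    R * ∑' k : ℤ, G (k / R) * c0 k.natAbs ≤ |L G| + 4 * D := by
  obtain ⟨M, hM⟩ := exists_nat_ge (A * R)
  have hR0 : 0 < R := by linarith
  have h1 : Tendsto (fun N => R * ∑' k : ℤ, G (k / R) * cx x N k.natAbs) F
      (𝓝 (R * ∑' k : ℤ, G (k / R) * c0 k.natAbs)) := by
    have e : ∀ N, ∑' k : ℤ, G (k / R) * cx x N k.natAbs = ∑ k ∈ IC M, G (k / R) * cx x N k.natAbs := fun N =>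
      ts_eq hG hR0 hM _
    simp only [e]
    rw [ts_eq hG hR0 hM (fun k => c0 k.natAbs)]
    exact (tendsto_finsetSum _ fun k _ => (hc0 _).const_mul _).const_mul _
  apply le_of_forall_pos_le_add
  intro ε hε
  refine le_of_tendsto h1 ?_
  filter_upwards [hF (hD R hR ε hε)] with N hN
  have h2 := log_bd hR
  have h3 : D * Real.log R ^ 2 / R ≤ 4 * D := by
    rw [mul_div_assoc]
    nlinarith
  have h4 := (abs_le.1 hN).2
  have h5 := le_abs_self (L G)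
  linarith

lemma ph_even (y : ℝ) : ph (-y) = ph y := bmp.neg y

lemma au_even (f : ℝ → ℝ) (y : ℝ) : au f (-y) = au f y := by
  unfold au
  rw [← integral_add_left_eq_self (fun x => f x * f (-y + x)) y]
  congr 1
  ext x
  rw [show -y + (y + x) = x by ring, mul_comm]

lemma au_cs {Φ Φ' : ℝ → ℝ} {A : ℝ} (h : Step Φ Φ' A) : HasCompactSupport (au Φ') := by
  refine HasCompactSupport.intro (isCompact_closedBall (0 : ℝ) (2 * A)) fun y hy => ?_
  rw [Metric.mem_closedBall, Real.dist_eq, sub_zero, not_le] at hy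
  exact au_zero h hy.le

lemma f_cs {Φ Φ' : ℝ → ℝ} {A : ℝ} (h : Step Φ Φ' A) : HasCompactSupport Φ' := by
  refine HasCompactSupport.intro (isCompact_closedBall (0 : ℝ) A) fun y hy => ?_
  rw [Metric.mem_closedBall, Real.dist_eq, sub_zero, not_le] at hy
  exact h.z y hy.le

lemma au_smooth {Φ Φ' : ℝ → ℝ} {A : ℝ} (h : Step Φ Φ' A) (hs : ContDiff ℝ ∞ Φ') : ContDiff ℝ ∞ (au Φ') := by
  have e : au Φ' = MeasureTheory.convolution (fun x => Φ' (-x)) Φ' (ContinuousLinearMap.mul ℝ ℝ) volume := by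
    ext y
    unfold au MeasureTheory.convolution
    rw [← integral_neg_eq_self (fun x => Φ' x * Φ' (y + x))]
    congr 1
  rw [e]
  apply (f_cs h).contDiff_convolution_right _ _ hs
  exact (h.c.comp continuous_neg).locallyIntegrable

lemma bdd {L : (ℝ → ℝ) → ℝ} (hx : ∀ n, 1 ≤ n → |x n| ≤ C * (1 + Real.log n)) (hL : LawX x L) :
    ∃ D : ℝ, ∀ k : ℕ, ∀ᶠ N : ℕ in atTop, |cx x N k| ≤ D := by
  obtain ⟨D, hD, h⟩ := hL (fun y => ph (4 * y)) (ph_smooth.comp (by fun_prop)) (by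
    refine HasCompactSupport.intro (isCompact_closedBall (0 : ℝ) 1) fun y hy => ?_
    rw [Metric.mem_closedBall, Real.dist_eq, sub_zero, not_le] at hy
    apply ph_zero
    rw [abs_mul, abs_of_pos (by norm_num : (0 : ℝ) < 4)]
    linarith) (fun y => by rw [mul_neg, ph_even])
  have h2 := h 2 le_rfl 1 one_pos
  obtain ⟨E, hE⟩ : ∃ E, E = |L (fun y => ph (4 * y))| + D * Real.log 2 ^ 2 / 2 + 1 := ⟨_, rfl⟩
  have h3 : ∀ᶠ N : ℕ in atTop, cx x N 0 ≤ E := by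
    filter_upwards [h2] with N hN
    have e : ∑' k : ℤ, ph (4 * ((k : ℝ) / 2)) * cx x N k.natAbs = cx x N 0 := by
      rw [tsum_eq_single 0]
      · rw [Int.cast_zero, zero_div, mul_zero, ph_one (by simp), one_mul, Int.natAbs_zero]
      · intro k hk
        rw [ph_zero, zero_mul]
        have h5 : (1 : ℝ) ≤ |(k : ℝ)| := by exact_mod_cast Int.one_le_abs hk
        rw [abs_mul, abs_div, abs_of_pos (by norm_num : (0 : ℝ) < 4), abs_of_pos (by norm_num : (0 : ℝ) < 2)]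
        linarith
    rw [e] at hN
    have h4 := (abs_le.1 hN).2
    have h5 := le_abs_self (L (fun y => ph (4 * y)))
    have h6 : 0 ≤ cx x N 0 := by
      unfold cx
      refine mul_nonneg (by positivity) (Finset.sum_nonneg fun n _ => ?_)
      rw [add_zero]
      exact mul_self_nonneg _
    linarith
  refine ⟨E + 1, fun k => ?_⟩
  have h4 := (edge hx k k).eventually (Metric.ball_mem_nhds (0 : ℝ) one_pos)
  filter_upwards [h3, h4] with N hN1 hN2
  rw [Real.dist_eq, sub_zero, sub_self, Int.natAbs_zero] at hN2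
  have h5 := (abs_lt.1 hN2).2
  have h6 : |cx x N k| ≤ (1 / 2 : ℝ) * cx x N 0 + (1 / 2 : ℝ) * sx x N k k := by
    unfold cx sx
    rw [abs_mul, abs_of_nonneg (by positivity : (0 : ℝ) ≤ 1 / N)]
    have h7 : |∑ n ∈ Icc 1 N, x n * x (n + k)| ≤
        ∑ n ∈ Icc 1 N, ((1 / 2 : ℝ) * (x n * x (n + 0)) + (1 / 2 : ℝ) * (x (n + k) * x (n + k))) := by
      refine (Finset.abs_sum_le_sum_abs _ _).trans (Finset.sum_le_sum fun n _ => ?_)
      rw [add_zero, abs_le]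
      constructor <;> nlinarith [sq_nonneg (x n + x (n + k)), sq_nonneg (x n - x (n + k))]
    rw [Finset.sum_add_distrib, ← Finset.mul_sum, ← Finset.mul_sum] at h7
    calc (1 / N : ℝ) * |∑ n ∈ Icc 1 N, x n * x (n + k)| ≤ (1 / N : ℝ) *
          ((1 / 2 : ℝ) * ∑ n ∈ Icc 1 N, x n * x (n + 0) + (1 / 2 : ℝ) * ∑ n ∈ Icc 1 N, x (n + k) * x (n + k)) :=
          mul_le_mul_of_nonneg_left h7 (by positivity)
      _ = _ := by ring
  linarith

theorem ult_main {L : (ℝ → ℝ) → ℝ} (hx : ∀ n, 1 ≤ n → |x n| ≤ C * (1 + Real.log n)) (hL : LawX x L) :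
    ∃ E : ℝ, 0 < E ∧ ∀ m : ℕ, 1 ≤ m → ∀ J : ℕ, 1 ≤ J → ∀ᶠ N : ℕ in atTop,
      msq x (fun k => W m J ((k : ℤ) - (2 ^ (J + 2) * m : ℕ))) (2 * (2 ^ (J + 2) * m)) N ≤ E / J := by
  obtain ⟨D0, hD0, h0⟩ := hL (au ph) (au_smooth step0 ph_smooth) (au_cs step0) (au_even ph)
  obtain ⟨D1, hD1, h1⟩ := hL (au dph) (au_smooth step1 dph_smooth) (au_cs step1) (au_even dph)
  obtain ⟨E, hE, hmain⟩ := main_abs (K0 := |L (au ph)| + 4 * D0) (K1 := |L (au dph)| + 4 * D1) (by positivity)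
  obtain ⟨D, hD⟩ := bdd hx hL
  refine ⟨E + 1, by linarith, fun m hm J hJ => ?_⟩
  by_contra hcon
  rw [not_eventually] at hcon
  obtain ⟨K, hK⟩ : ∃ K : ℕ, K = 2 ^ (J + 2) * m := ⟨_, rfl⟩
  rw [← hK] at hcon
  obtain ⟨S, hS⟩ : ∃ S : Set ℕ, S = {N | ¬ msq x (fun k => W m J ((k : ℤ) - K)) (2 * K) N ≤ (E + 1) / J} :=
    ⟨_, rfl⟩
  have hne : (atTop ⊓ 𝓟 S : Filter ℕ).NeBot := by
    rw [← frequently_mem_iff_neBot]
    rw [hS]
    exact hcon
  obtain ⟨F, hF⟩ : ∃ F : Ultrafilter ℕ, (F : Filter ℕ) ≤ atTop ⊓ 𝓟 S := ⟨Ultrafilter.of _, Ultrafilter.of_le _⟩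
  have hFa : (F : Filter ℕ) ≤ atTop := hF.trans inf_le_left
  have hFS : S ∈ (F : Filter ℕ) := hF.trans inf_le_right (mem_principal_self S)
  have hlim : ∀ k : ℕ, ∃ l : ℝ, Tendsto (fun N => cx x N k) F (𝓝 l) := by
    intro k
    have h2 : ((F.map fun N => cx x N k : Ultrafilter ℝ) : Filter ℝ) ≤ 𝓟 (Set.Icc (-D) D) := by
      rw [le_principal_iff, Ultrafilter.coe_map, Filter.mem_map]
      exact hFa ((hD k).mono fun N hN => abs_le.1 hN)
    obtain ⟨l, _, hl⟩ := isCompact_Icc.ultrafilter_le_nhds _ h2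
    exact ⟨l, hl⟩
  choose c0 hc0 using hlim
  have hb := hmain m hm J hJ (fun k => c0 k.natAbs) (fun k => by rw [Int.natAbs_neg]) (psd hx hFa hc0)
    (fun R hR => law_lim (L := L) (A := 2 * 2) (fun y hy => au_zero step0 hy) h0 hD0 hFa hc0 hR)
    (fun R hR => law_lim (L := L) (A := 2 * 2) (fun y hy => au_zero step1 hy) h1 hD1 hFa hc0 hR)
  have ht := msq_form hx hFa hc0 (W m J) K (by
    intro k hk
    apply W_zero hm
    rw [hK] at hk
    have : ((2 ^ (J + 2) * m : ℕ) : ℝ) ≤ ((|k| : ℤ) : ℝ) := by exact_mod_cast hk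
    push_cast at this
    exact this)
  have hge : (E + 1) / J ≤ B (fun k => c0 k.natAbs) (W m J) (W m J) := by
    refine ge_of_tendsto ht ?_
    filter_upwards [hFS] with N hN
    rw [hS] at hN
    exact (not_le.1 hN).le
  have hJ' : (0 : ℝ) < J := by exact_mod_cast hJ
  have : (E + 1) / J ≤ E / J := hge.trans hb
  rw [div_le_div_iff_of_pos_right hJ'] at this
  linarith

end Pool.Agent.E8helper28.Gi
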